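import Pool.Agent.Q179.DG.G

set_option autoImplicit false

namespace Pool.Agent.Results.MP_7ea12b_co.OrderOfGrowth

/-- Every nonempty vertex set contains a vertex with at most `d` neighbours in it. -/
def Degenerate {n : ℕ} (d : ℕ) (G : SimpleGraph (Fin n)) : Prop :=
  ∀ S : Finset (Fin n), S.Nonempty → ∃ v ∈ S, ({u ∈ (S : Set (Fin n)) | G.Adj v u}).ncard ≤ d

/-- `w` is a fractional colouring by independent sets. -/
def IsFracColouring {n : ℕ} (G : SimpleGraph (Fin n)) (w : Finset (Fin n) → ℝ) : Prop :=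
  (∀ I, 0 ≤ w I) ∧ (∀ I, w I ≠ 0 → G.IsIndepSet (↑I : Set (Fin n))) ∧
    ∀ v : Fin n, 1 ≤ ∑ I ∈ Finset.univ.filter (fun I : Finset (Fin n) => v ∈ I), w I

/-- The fractional chromatic number. -/
noncomputable def chiF {n : ℕ} (G : SimpleGraph (Fin n)) : ℝ :=
  sInf {t | ∃ w : Finset (Fin n) → ℝ, IsFracColouring G w ∧ t = ∑ I, w I}

/-- The values of the fractional chromatic number on `d`-degenerate `K_r`-free graphs. -/
def values (r d : ℕ) : Set ℝ :=
  {t | ∃ (n : ℕ) (G : SimpleGraph (Fin n)), Degenerate d G ∧ G.CliqueFree r ∧ t = chiF G}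

/-- The function `g_r(d)`. -/
noncomputable def g (r d : ℕ) : ℝ := sSup (values r d)

/-- For every `r ≥ 3` there is `K` with `g_r(d) ≤ K d / log^(r-2) d` for all large `d`, which
matches the known lower bound `c d / log^(r-2) d`. -/
theorem result : ∀ r : ℕ, 3 ≤ r → ∃ K : ℝ, 0 < K ∧ ∃ d₀ : ℕ, ∀ d : ℕ, d₀ ≤ d →
    1 ≤ Real.log^[r - 2] (d : ℝ) ∧ BddAbove (values r d) ∧
      g r d ≤ K * (d : ℝ) / Real.log^[r - 2] (d : ℝ) := by
  classical
  intro r hr
  obtain ⟨K, hK, d₀, h⟩ := Pool.Agent.Q179.DG.upper r hr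
  refine ⟨K, hK, d₀, ?_⟩
  intro d hd
  obtain ⟨h1, h2⟩ := h d hd
  have key : ∀ t ∈ values r d, t ≤ K * (d : ℝ) / Real.log^[r - 2] (d : ℝ) := by
    rintro t ⟨n, G, hdeg, hfree, rfl⟩
    obtain ⟨w, w0, w1, w2, w3⟩ := h2 n G hfree (by
      intro S hS
      obtain ⟨v, hv, hvd⟩ := hdeg S hS
      refine ⟨v, hv, ?_⟩
      have e : ((S.filter (fun u => G.Adj v u) : Finset (Fin n)) : Set (Fin n)) =
          {u ∈ (S : Set (Fin n)) | G.Adj v u} := by
        ext u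
        simp
      rw [← e, Set.ncard_coe_finset] at hvd
      exact hvd)
    refine le_trans (csInf_le ?_ ?_) w3
    · refine ⟨0, ?_⟩
      rintro _ ⟨w', hw', rfl⟩
      exact Finset.sum_nonneg fun I _ => hw'.1 I
    · exact ⟨w, ⟨w0, w1, w2⟩, rfl⟩
  refine ⟨h1, ⟨_, key⟩, ?_⟩
  refine csSup_le ⟨chiF (⊥ : SimpleGraph (Fin 0)), 0, ⊥, ?_, ?_, rfl⟩ key
  · intro S hS
    obtain ⟨v, _⟩ := hS
    exact v.elim0
  · rw [SimpleGraph.cliqueFree_iff]
    constructor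
    intro f
    exact (f ⟨0, by omega⟩).elim0

end Pool.Agent.Results.MP_7ea12b_co.OrderOfGrowth
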